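import Pool.Agent.Y343.LD.Stm

/-!
LD-PROD: products of graphs with a spectral gap (helper810, for helper343).
-/

set_option autoImplicit false

open Filter Topology

namespace Pool.Agent.Y810.LD

open Pool.Agent.Y343.LC Pool.Agent.Y343.LD

theorem sq_norm_add (x y : ℂ) : ‖x + y‖ ^ 2 ≤ 2 * ‖x‖ ^ 2 + 2 * ‖y‖ ^ 2 := by
  have h1 := norm_add_le x y
  have h2 := norm_nonneg (x + y)
  nlinarith [sq_nonneg (‖x‖ - ‖y‖)]

theorem sq_norm_sub (x y : ℂ) : ‖x - y‖ ^ 2 ≤ 2 * ‖x‖ ^ 2 + 2 * ‖y‖ ^ 2 := by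
  have h := sq_norm_add x (-y)
  rwa [← sub_eq_add_neg, norm_neg] at h

theorem Sq_add {X : Type} {f g : X → ℂ} (hf : Sq f) (hg : Sq g) : Sq (fun x => f x + g x) :=
  Summable.of_nonneg_of_le (fun _ => sq_nonneg _) (fun x => sq_norm_add (f x) (g x))
    ((hf.mul_left 2).add (hg.mul_left 2))

theorem t_PROD : StmProd := by
  intro A B Y Z hY hG hZ hB φ hφ
  obtain ⟨C, hC⟩ := hG
  have hφ' : Summable fun x : {p : (A × B) × (A × B) // (Y.boxProd Z).Adj p.1 p.2} =>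
      ‖φ x.1.2 - φ x.1.1‖ ^ 2 := hφ
  -- the horizontal edges
  have hs1 : Summable fun q : B × {p : A × A // Y.Adj p.1 p.2} =>
      ‖φ (q.2.1.2, q.1) - φ (q.2.1.1, q.1)‖ ^ 2 := by
    refine hφ'.comp_injective (i := fun q : B × {p : A × A // Y.Adj p.1 p.2} =>
      (⟨((q.2.1.1, q.1), (q.2.1.2, q.1)), by
        rw [SimpleGraph.boxProd_adj]
        exact Or.inl ⟨q.2.2, rfl⟩⟩ : {p : (A × B) × (A × B) // (Y.boxProd Z).Adj p.1 p.2})) ?_
    rintro ⟨b, ⟨⟨x, y⟩, h⟩⟩ ⟨b', ⟨⟨x', y'⟩, h'⟩⟩ hq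
    simp only [Subtype.mk.injEq, Prod.mk.injEq] at hq
    obtain ⟨⟨h1, h2⟩, h3, _⟩ := hq
    subst h1 h2 h3
    rfl
  set e : B → ℝ := fun b => ∑' p : {p : A × A // Y.Adj p.1 p.2},
    ‖φ (p.1.2, b) - φ (p.1.1, b)‖ ^ 2 with he
  have he_sum : Summable e := hs1.prod
  have he_fac : ∀ b, Summable fun p : {p : A × A // Y.Adj p.1 p.2} =>
      ‖φ (p.1.2, b) - φ (p.1.1, b)‖ ^ 2 := fun b => hs1.prod_factor b
  have he0 : Tendsto e cofinite (𝓝 0) := he_sum.tendsto_cofinite_zero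
  have he_nn : ∀ b, 0 ≤ e b := fun b => tsum_nonneg fun _ => sq_nonneg _
  have he_le : ∀ (b : B) (a a' : A), Y.Adj a a' → ‖φ (a', b) - φ (a, b)‖ ^ 2 ≤ e b := by
    intro b a a' h
    exact (he_fac b).le_tsum (⟨(a, a'), h⟩ : {p : A × A // Y.Adj p.1 p.2})
      (fun _ _ => sq_nonneg _)
  -- the vertical edges
  have hadj : ∀ b b', Z.Adj b b' → Sq fun a => φ (a, b) - φ (a, b') := by
    intro b b' h
    refine hφ'.comp_injective (i := fun a : A => (⟨((a, b'), (a, b)), by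
        rw [SimpleGraph.boxProd_adj]
        exact Or.inr ⟨h.symm, rfl⟩⟩ : {p : (A × B) × (A × B) // (Y.boxProd Z).Adj p.1 p.2})) ?_
    intro a a' hq
    simp only [Subtype.mk.injEq, Prod.mk.injEq] at hq
    exact hq.1.1
  have hwalk : ∀ (b b' : B), Z.Walk b b' → Sq fun a => φ (a, b) - φ (a, b') := by
    intro b b' w
    induction w with
    | nil =>
      unfold Sq
      simp only [sub_self, norm_zero, ne_eq, OfNat.ofNat_ne_zero, not_false_eq_true, zero_pow]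
      exact summable_zero
    | cons h _ ih =>
      have h1 := Sq_add (hadj _ _ h) ih
      simpa using h1
  have hall : ∀ b b', Sq fun a => φ (a, b) - φ (a, b') := by
    intro b b'
    obtain ⟨w⟩ := hZ.preconnected b b'
    exact hwalk b b' w
  -- the gap inequality
  set C' : ℝ := max C 0 with hC'
  have hC0 : 0 ≤ C' := le_max_right _ _
  have hgap : ∀ b b', ∑' a, ‖φ (a, b) - φ (a, b')‖ ^ 2 ≤ C' * (2 * e b + 2 * e b') := by
    intro b b'
    have hbd : ∀ p : {p : A × A // Y.Adj p.1 p.2},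
        ‖(φ (p.1.2, b) - φ (p.1.2, b')) - (φ (p.1.1, b) - φ (p.1.1, b'))‖ ^ 2 ≤
        2 * ‖φ (p.1.2, b) - φ (p.1.1, b)‖ ^ 2 + 2 * ‖φ (p.1.2, b') - φ (p.1.1, b')‖ ^ 2 := by
      intro p
      have h1 := sq_norm_sub (φ (p.1.2, b) - φ (p.1.1, b)) (φ (p.1.2, b') - φ (p.1.1, b'))
      have h2 : (φ (p.1.2, b) - φ (p.1.2, b')) - (φ (p.1.1, b) - φ (p.1.1, b')) =
          (φ (p.1.2, b) - φ (p.1.1, b)) - (φ (p.1.2, b') - φ (p.1.1, b')) := by ring
      rw [h2]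
      exact h1
    have hR : Summable fun p : {p : A × A // Y.Adj p.1 p.2} =>
        2 * ‖φ (p.1.2, b) - φ (p.1.1, b)‖ ^ 2 + 2 * ‖φ (p.1.2, b') - φ (p.1.1, b')‖ ^ 2 :=
      ((he_fac b).mul_left 2).add ((he_fac b').mul_left 2)
    have hD : Dirichlet Y fun a => φ (a, b) - φ (a, b') :=
      Summable.of_nonneg_of_le (fun _ => sq_nonneg _) hbd hR
    have h1 := hC (fun a => φ (a, b) - φ (a, b')) (hall b b') hD
    have h2 : ∑' p : {p : A × A // Y.Adj p.1 p.2},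
        ‖(φ (p.1.2, b) - φ (p.1.2, b')) - (φ (p.1.1, b) - φ (p.1.1, b'))‖ ^ 2 ≤
        2 * e b + 2 * e b' := by
      refine (Summable.tsum_le_tsum hbd hD hR).trans (le_of_eq ?_)
      rw [((he_fac b).mul_left 2).tsum_add ((he_fac b').mul_left 2), tsum_mul_left, tsum_mul_left]
    have h3 : (0 : ℝ) ≤ ∑' p : {p : A × A // Y.Adj p.1 p.2},
        ‖(φ (p.1.2, b) - φ (p.1.2, b')) - (φ (p.1.1, b) - φ (p.1.1, b'))‖ ^ 2 :=
      tsum_nonneg fun _ => sq_nonneg _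
    calc _ ≤ C * ∑' p : {p : A × A // Y.Adj p.1 p.2},
          ‖(φ (p.1.2, b) - φ (p.1.2, b')) - (φ (p.1.1, b) - φ (p.1.1, b'))‖ ^ 2 := h1
      _ ≤ C' * ∑' p : {p : A × A // Y.Adj p.1 p.2},
          ‖(φ (p.1.2, b) - φ (p.1.2, b')) - (φ (p.1.1, b) - φ (p.1.1, b'))‖ ^ 2 :=
        mul_le_mul_of_nonneg_right (le_max_left _ _) h3
      _ ≤ C' * (2 * e b + 2 * e b') := mul_le_mul_of_nonneg_left h2 hC0
  have hfin : ∀ (F : Finset A) (b b' : B),
      ∑ a ∈ F, ‖φ (a, b) - φ (a, b')‖ ^ 2 ≤ C' * (2 * e b + 2 * e b') := by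
    intro F b b'
    exact ((hall b b').sum_le_tsum F (fun _ _ => sq_nonneg _)).trans (hgap b b')
  -- the limit at one vertex
  obtain ⟨a0⟩ := hY.nonempty
  have hlim0 : ∃ k : ℂ, Tendsto (fun b => φ (a0, b)) cofinite (𝓝 k) := by
    rw [← cauchy_map_iff_exists_tendsto, Metric.cauchy_iff]
    refine ⟨inferInstance, fun ε hε => ?_⟩
    have h1 : Tendsto (fun b => C' * 4 * e b) cofinite (𝓝 0) := by
      have := he0.const_mul (C' * 4)
      rwa [mul_zero] at this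
    have h2 : ∀ᶠ b in cofinite, C' * 4 * e b < ε ^ 2 :=
      h1.eventually (gt_mem_nhds (by positivity))
    refine ⟨(fun b => φ (a0, b)) '' {b | C' * 4 * e b < ε ^ 2}, image_mem_map h2, ?_⟩
    rintro _ ⟨b, hb, rfl⟩ _ ⟨b', hb', rfl⟩
    rw [Set.mem_ofPred_eq] at hb hb'
    have h3 := hfin {a0} b b'
    rw [Finset.sum_singleton] at h3
    rw [dist_eq_norm]
    refine lt_of_pow_lt_pow_left₀ 2 hε.le ?_
    nlinarith
  obtain ⟨k, hk0⟩ := hlim0
  have hstep : ∀ a a', Y.Adj a a' → Tendsto (fun b => φ (a, b)) cofinite (𝓝 k) →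
      Tendsto (fun b => φ (a', b)) cofinite (𝓝 k) := by
    intro a a' h hk
    have h1 : Tendsto (fun b => φ (a', b) - φ (a, b)) cofinite (𝓝 0) := by
      rw [tendsto_zero_iff_norm_tendsto_zero]
      have h2 : Tendsto (fun b => √(e b)) cofinite (𝓝 0) := by
        have := (Real.continuous_sqrt.tendsto 0).comp he0
        rwa [Real.sqrt_zero] at this
      refine squeeze_zero (fun _ => norm_nonneg _) (fun b => ?_) h2
      exact Real.le_sqrt_of_sq_le (he_le b a a' h)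
    have h3 := h1.add hk
    simpa using h3
  have hwalk2 : ∀ (a a' : A), Y.Walk a a' → Tendsto (fun b => φ (a, b)) cofinite (𝓝 k) →
      Tendsto (fun b => φ (a', b)) cofinite (𝓝 k) := by
    intro a a' w
    induction w with
    | nil => exact fun h => h
    | cons h _ ih => exact fun h' => ih (hstep _ _ h h')
  have hk : ∀ a, Tendsto (fun b => φ (a, b)) cofinite (𝓝 k) := by
    intro a
    obtain ⟨w⟩ := hY.preconnected a0 a
    exact hwalk2 a0 a w hk0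
  -- the estimate
  have hest : ∀ (F : Finset A) (b : B), ∑ a ∈ F, ‖φ (a, b) - k‖ ^ 2 ≤ C' * (2 * e b) := by
    intro F b
    have h1 : Tendsto (fun b' => ∑ a ∈ F, ‖φ (a, b) - φ (a, b')‖ ^ 2) cofinite
        (𝓝 (∑ a ∈ F, ‖φ (a, b) - k‖ ^ 2)) :=
      tendsto_finsetSum _ fun a _ => ((tendsto_const_nhds.sub (hk a)).norm).pow 2
    have h2 : Tendsto (fun b' => C' * (2 * e b + 2 * e b')) cofinite (𝓝 (C' * (2 * e b))) := by
      have h3 := ((he0.const_mul 2).const_add (2 * e b)).const_mul C'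
      simpa using h3
    exact le_of_tendsto_of_tendsto' h1 h2 fun b' => hfin F b b'
  have hsa : ∀ b, Summable fun a => ‖φ (a, b) - k‖ ^ 2 := fun b =>
    summable_of_sum_le (fun _ => sq_nonneg _) fun F => hest F b
  refine ⟨k, ?_⟩
  have hBA : Summable fun q : B × A => ‖φ (q.2, q.1) - k‖ ^ 2 := by
    rw [summable_prod_of_nonneg (fun _ => sq_nonneg _)]
    refine ⟨hsa, ?_⟩
    refine Summable.of_nonneg_of_le (fun b => tsum_nonneg fun _ => sq_nonneg _) (fun b => ?_)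
      ((he_sum.mul_left 2).mul_left C')
    exact (hsa b).tsum_le_of_sum_le fun F => hest F b
  have h5 := (Equiv.prodComm A B).summable_iff.2 hBA
  exact h5

theorem t_DEG : StmDeg := by
  intro A B Y Z hY hZ
  obtain ⟨D, hD⟩ := hY
  obtain ⟨D', hD'⟩ := hZ
  refine ⟨D + D', ?_⟩
  rintro ⟨a, b⟩
  have h1 : {v | (Y.boxProd Z).Adj (a, b) v} =
      (fun x => (x, b)) '' {x | Y.Adj a x} ∪ (fun y => (a, y)) '' {y | Z.Adj b y} := by
    ext ⟨x, y⟩
    simp only [Set.mem_ofPred_eq, SimpleGraph.boxProd_adj, Set.mem_union, Set.mem_image,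
      Prod.mk.injEq]
    constructor
    · rintro (⟨h, h'⟩ | ⟨h, h'⟩)
      · exact Or.inl ⟨x, h, rfl, h'⟩
      · exact Or.inr ⟨y, h, h', rfl⟩
    · rintro (⟨x', h, rfl, h'⟩ | ⟨y', h, h', rfl⟩)
      · exact Or.inl ⟨h, h'⟩
      · exact Or.inr ⟨h, h'⟩
  rw [h1]
  have f1 := ((hD a).1.image (fun x => (x, b)))
  have f2 := ((hD' b).1.image (fun y => (a, y)))
  refine ⟨f1.union f2, ?_⟩
  calc _ ≤ ((fun x => (x, b)) '' {x | Y.Adj a x}).ncard +
        ((fun y => (a, y)) '' {y | Z.Adj b y}).ncard := Set.ncard_union_le _ _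
    _ ≤ {x | Y.Adj a x}.ncard + {y | Z.Adj b y}.ncard :=
        Nat.add_le_add (Set.ncard_image_le (hD a).1) (Set.ncard_image_le (hD' b).1)
    _ ≤ D + D' := Nat.add_le_add (hD a).2 (hD' b).2

end Pool.Agent.Y810.LD
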